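import Pool.Agent.Helper61.LN.Goals

/-!
# PROJECT LN (MP_c65973_gt): packet LN-K1 (colourings of bands whose cores have no closed components)
-/

set_option autoImplicit false

namespace Pool.Agent.Helper67.LN.K1

open Pool.Agent.Helper31.Sk Pool.Agent.Helper61.LN

/-- the pattern of a labelling of bands: the bands with two different labels -/
def P (x : ℕ → ZMod 3) : ℕ → ZMod 2 := fun j => if x (2 * j) = x (2 * j + 1) then 0 else 1

/-- the bands whose first label is not zero -/
def R (x : ℕ → ZMod 3) : ℕ → ZMod 2 := fun j => if x (2 * j) = 0 then 0 else 1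

/-- labels after a cup of bands -/
def ic (i : ℕ) (c d : ZMod 3) (x : ℕ → ZMod 3) : ℕ → ZMod 3 :=
  insF (2 * i + 1) d d (insF (2 * i) c c x)

/-- labels after a cap of bands -/
def dc (i : ℕ) (x : ℕ → ZMod 3) : ℕ → ZMod 3 := delF (2 * i) (delF (2 * i + 1) x)

/-- four labels are changed -/
def s4 (i : ℕ) (a b c d : ZMod 3) (x : ℕ → ZMod 3) : ℕ → ZMod 3 := fun k =>
  if k = 2 * i then a else if k = 2 * i + 1 then b else if k = 2 * i + 2 then c else
    if k = 2 * i + 3 then d else x k

/-- labels after a crossing of bands -/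
def pc (i : ℕ) (x : ℕ → ZMod 3) : ℕ → ZMod 3 :=
  s4 i (2 * x (2 * i) - 2 * x (2 * i + 1) + x (2 * i + 2))
    (2 * x (2 * i) - 2 * x (2 * i + 1) + x (2 * i + 3)) (x (2 * i)) (x (2 * i + 1)) x

/-- labels after a crossing of bands -/
def nc (i : ℕ) (x : ℕ → ZMod 3) : ℕ → ZMod 3 :=
  s4 i (x (2 * i + 2)) (x (2 * i + 3))
    (2 * x (2 * i + 3) - 2 * x (2 * i + 2) + x (2 * i))
    (2 * x (2 * i + 3) - 2 * x (2 * i + 2) + x (2 * i + 1)) x

theorem ic_lt {i : ℕ} (c d : ZMod 3) (x : ℕ → ZMod 3) {k : ℕ} (h : k < 2 * i) :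
    ic i c d x k = x k := by
  simp only [ic, insF]
  rw [if_pos (by omega), if_pos h]

theorem ic_0 (i : ℕ) (c d : ZMod 3) (x : ℕ → ZMod 3) : ic i c d x (2 * i) = c := by
  simp (disch := omega) only [ic, insF, if_pos, if_neg, if_true]

theorem ic_1 (i : ℕ) (c d : ZMod 3) (x : ℕ → ZMod 3) : ic i c d x (2 * i + 1) = d := by
  simp (disch := omega) only [ic, insF, if_pos, if_neg, if_true]

theorem ic_2 (i : ℕ) (c d : ZMod 3) (x : ℕ → ZMod 3) : ic i c d x (2 * i + 2) = d := by
  simp (disch := omega) only [ic, insF, if_pos, if_neg, if_true]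

theorem ic_3 (i : ℕ) (c d : ZMod 3) (x : ℕ → ZMod 3) : ic i c d x (2 * i + 3) = c := by
  simp (disch := omega) only [ic, insF, if_pos, if_neg]

theorem ic_ge {i : ℕ} (c d : ZMod 3) (x : ℕ → ZMod 3) {k : ℕ} (h : 2 * i + 4 ≤ k) :
    ic i c d x k = x (k - 4) := by
  simp only [ic, insF]
  rw [if_neg (by omega), if_neg (by omega), if_neg (by omega), if_neg (by omega), if_neg (by omega),
    if_neg (by omega)]
  congr 1

theorem dc_lt {i : ℕ} (x : ℕ → ZMod 3) {k : ℕ} (h : k < 2 * i) : dc i x k = x k := by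
  simp only [dc, delF]
  rw [if_pos h, if_pos (by omega)]

theorem dc_ge {i : ℕ} (x : ℕ → ZMod 3) {k : ℕ} (h : 2 * i ≤ k) : dc i x k = x (k + 4) := by
  simp only [dc, delF]
  rw [if_neg (by omega), if_neg (by omega)]

theorem s4_ne {i : ℕ} (a b c d : ZMod 3) (x : ℕ → ZMod 3) {k : ℕ} (h : k < 2 * i ∨ 2 * i + 4 ≤ k) :
    s4 i a b c d x k = x k := by
  simp only [s4]
  rw [if_neg (by omega), if_neg (by omega), if_neg (by omega), if_neg (by omega)]

theorem s4_0 (i : ℕ) (a b c d : ZMod 3) (x : ℕ → ZMod 3) : s4 i a b c d x (2 * i) = a := by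
  simp (disch := omega) only [s4, if_neg, if_true]

theorem s4_1 (i : ℕ) (a b c d : ZMod 3) (x : ℕ → ZMod 3) : s4 i a b c d x (2 * i + 1) = b := by
  simp (disch := omega) only [s4, if_neg, if_true]

theorem s4_2 (i : ℕ) (a b c d : ZMod 3) (x : ℕ → ZMod 3) : s4 i a b c d x (2 * i + 2) = c := by
  simp (disch := omega) only [s4, if_neg, if_true]

theorem s4_3 (i : ℕ) (a b c d : ZMod 3) (x : ℕ → ZMod 3) : s4 i a b c d x (2 * i + 3) = d := by
  simp (disch := omega) only [s4, if_neg, if_true]

/-! ### the functor on bands -/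

theorem e3_cup (i : ℕ) (t : Word) (x : ℕ → ZMod 3) :
    e3 (dbl ((i, .cup) :: t)) x = ∑ c : ZMod 3, ∑ d : ZMod 3, e3 (dbl t) (ic i c d x) := by
  simp only [dbl, List.flatMap_cons, dbl1, List.cons_append, List.nil_append, e3, ev, op, ic]

theorem e3_cap (i : ℕ) (t : Word) (x : ℕ → ZMod 3) (h : e3 (dbl ((i, .cap) :: t)) x ≠ 0) :
    x (2 * i + 1) = x (2 * i + 2) ∧ x (2 * i) = x (2 * i + 3) ∧ e3 (dbl t) (dc i x) ≠ 0 := by
  simp only [dbl, List.flatMap_cons, dbl1, List.cons_append, List.nil_append, e3, ev, op] at h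
  split_ifs at h with h1 h2
  · refine ⟨h1, ?_, h⟩
    simp only [delF] at h2
    rw [if_pos (by omega), if_neg (by omega)] at h2
    exact h2
  · exact absurd rfl h
  · exact absurd rfl h

theorem pc_eq (i : ℕ) (x : ℕ → ZMod 3) (t : Word) :
    e3 (dbl ((i, .pos) :: t)) x = e3 (dbl t) (pc i x) := by
  simp only [dbl, List.flatMap_cons, dbl1, List.cons_append, List.nil_append, e3, ev, op]
  congr 1
  funext k
  by_cases h0 : k = 2 * i
  · subst h0
    simp (disch := omega) only [setF, pc, s4, if_pos, if_neg, if_true]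
    ring_nf
  by_cases h1 : k = 2 * i + 1
  · subst h1
    simp (disch := omega) only [setF, pc, s4, if_pos, if_neg, if_true]
    ring_nf
  by_cases h2 : k = 2 * i + 2
  · subst h2
    simp (disch := omega) only [setF, pc, s4, if_pos, if_neg, if_true]
  by_cases h3 : k = 2 * i + 3
  · subst h3
    simp (disch := omega) only [setF, pc, s4, if_pos, if_neg, if_true]
  · rw [pc, s4_ne _ _ _ _ _ (by omega)]
    simp only [setF]
    rw [if_neg (by omega), if_neg (by omega), if_neg (by omega), if_neg (by omega),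
      if_neg (by omega), if_neg (by omega), if_neg (by omega), if_neg (by omega)]

theorem nc_eq (i : ℕ) (x : ℕ → ZMod 3) (t : Word) :
    e3 (dbl ((i, .neg) :: t)) x = e3 (dbl t) (nc i x) := by
  simp only [dbl, List.flatMap_cons, dbl1, List.cons_append, List.nil_append, e3, ev, op]
  congr 1
  funext k
  by_cases h0 : k = 2 * i
  · subst h0
    simp (disch := omega) only [setF, nc, s4, if_pos, if_neg, if_true]
  by_cases h1 : k = 2 * i + 1
  · subst h1
    simp (disch := omega) only [setF, nc, s4, if_pos, if_neg, if_true]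
  by_cases h2 : k = 2 * i + 2
  · subst h2
    simp (disch := omega) only [setF, nc, s4, if_pos, if_neg, if_true]
    ring_nf
  by_cases h3 : k = 2 * i + 3
  · subst h3
    simp (disch := omega) only [setF, nc, s4, if_pos, if_neg, if_true]
    ring
  · rw [nc, s4_ne _ _ _ _ _ (by omega)]
    simp only [setF]
    rw [if_neg (by omega), if_neg (by omega), if_neg (by omega), if_neg (by omega),
      if_neg (by omega), if_neg (by omega), if_neg (by omega), if_neg (by omega)]

/-! ### two colours -/

theorem e2_cup (i : ℕ) (t : Word) (s : ℕ → ZMod 2) :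
    e2 ((i, .cup) :: t) s = e2 t (insF i 0 0 s) + e2 t (insF i 1 1 s) := by
  simp only [e2, ev, op]
  exact Fin.sum_univ_two _

theorem e2_cap (i : ℕ) (t : Word) (s : ℕ → ZMod 2) (h : s i = s (i + 1)) :
    e2 ((i, .cap) :: t) s = e2 t (delF i s) := by
  simp only [e2, ev, op]
  rw [if_pos h]

theorem neg2 (a : ZMod 2) : -a = a := by revert a; decide
theorem add2 (a : ZMod 2) : a + a = 0 := by revert a; decide

theorem e2_pos (i : ℕ) (t : Word) (s : ℕ → ZMod 2) :
    e2 ((i, .pos) :: t) s = e2 t (setF i (s (i + 1)) (s i) s) := by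
  simp only [e2, ev, op]
  rw [add2, zero_sub, neg2]

theorem e2_neg (i : ℕ) (t : Word) (s : ℕ → ZMod 2) :
    e2 ((i, .neg) :: t) s = e2 t (setF i (s (i + 1)) (s i) s) := by
  simp only [e2, ev, op]
  rw [add2, zero_sub, neg2]

theorem ins0 (i : ℕ) : insF i (0 : ZMod 2) 0 0 = 0 := by
  funext j
  simp [insF]

theorem del0 (i : ℕ) : delF i (0 : ℕ → ZMod 2) = 0 := by
  funext j
  simp [delF]

theorem set0 (i : ℕ) : setF i ((0 : ℕ → ZMod 2) (i + 1)) ((0 : ℕ → ZMod 2) i) 0 = 0 := by
  funext j
  simp [setF]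

theorem mono (s : ℕ × Gen) (t : Word) : e2 t 0 ≤ e2 (s :: t) 0 := by
  obtain ⟨i, g⟩ := s
  cases g
  · rw [e2_cup, ins0]
    exact Nat.le_add_right _ _
  · rw [e2_cap _ _ _ rfl, del0]
  · rw [e2_pos, set0]
  · rw [e2_neg, set0]

theorem one_le (t : Word) : 1 ≤ e2 t 0 := by
  induction t with
  | nil => exact le_refl _
  | cons s t ih => exact ih.trans (mono s t)

/-- the second term of a cup vanishes -/
theorem cup_zero {i : ℕ} {t : Word} (h : e2 ((i, .cup) :: t) 0 ≤ 1) :
    e2 t (insF i 1 1 0) = 0 := by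
  rw [e2_cup, ins0] at h
  have := one_le t
  omega

/-! ### patterns -/

section
variable {X : Type}

theorem insF_lt {i j : ℕ} (a b : X) (x : ℕ → X) (h : j < i) : insF i a b x j = x j := by
  simp only [insF]
  rw [if_pos h]

theorem insF_0 (i : ℕ) (a b : X) (x : ℕ → X) : insF i a b x i = a := by
  simp [insF]

theorem insF_1 (i : ℕ) (a b : X) (x : ℕ → X) : insF i a b x (i + 1) = b := by
  simp [insF]

theorem insF_ge {i j : ℕ} (a b : X) (x : ℕ → X) (h : i + 2 ≤ j) :
    insF i a b x j = x (j - 2) := by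
  simp only [insF]
  rw [if_neg (by omega), if_neg (by omega), if_neg (by omega)]

theorem delF_lt {i j : ℕ} (x : ℕ → X) (h : j < i) : delF i x j = x j := by
  simp only [delF]
  rw [if_pos h]

theorem delF_ge {i j : ℕ} (x : ℕ → X) (h : i ≤ j) : delF i x j = x (j + 2) := by
  simp only [delF]
  rw [if_neg (by omega)]

theorem setF_0 (i : ℕ) (a b : X) (x : ℕ → X) : setF i a b x i = a := by
  simp [setF]

theorem setF_1 (i : ℕ) (a b : X) (x : ℕ → X) : setF i a b x (i + 1) = b := by
  simp [setF]

theorem setF_ne {i j : ℕ} (a b : X) (x : ℕ → X) (h : j ≠ i) (h' : j ≠ i + 1) :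
    setF i a b x j = x j := by
  simp only [setF]
  rw [if_neg h, if_neg h']

end

theorem P_ic (i : ℕ) (c d : ZMod 3) (x : ℕ → ZMod 3) :
    P (ic i c d x) = insF i (if c = d then 0 else 1) (if c = d then 0 else 1) (P x) := by
  funext j
  by_cases h0 : j < i
  · rw [insF_lt _ _ _ h0]
    unfold P
    rw [ic_lt _ _ _ (by omega), ic_lt _ _ _ (by omega)]
  by_cases h1 : j = i
  · subst h1
    rw [insF_0]
    unfold P
    rw [ic_0, ic_1]
  by_cases h2 : j = i + 1
  · subst h2
    rw [insF_1]
    unfold P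
    rw [show 2 * (i + 1) = 2 * i + 2 by ring, ic_2, ic_3]
    simp only [eq_comm]
  · rw [insF_ge _ _ _ (by omega)]
    unfold P
    rw [ic_ge _ _ _ (by omega), ic_ge _ _ _ (by omega)]
    rw [show 2 * j - 4 = 2 * (j - 2) by omega, show 2 * j + 1 - 4 = 2 * (j - 2) + 1 by omega]

theorem R_ic (i : ℕ) (c : ZMod 3) (x : ℕ → ZMod 3) :
    R (ic i c c x) = insF i (if c = 0 then 0 else 1) (if c = 0 then 0 else 1) (R x) := by
  funext j
  by_cases h0 : j < i
  · rw [insF_lt _ _ _ h0]
    unfold R
    rw [ic_lt _ _ _ (by omega)]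
  by_cases h1 : j = i
  · subst h1
    rw [insF_0]
    unfold R
    rw [ic_0]
  by_cases h2 : j = i + 1
  · subst h2
    rw [insF_1]
    unfold R
    rw [show 2 * (i + 1) = 2 * i + 2 by ring, ic_2]
  · rw [insF_ge _ _ _ (by omega)]
    unfold R
    rw [ic_ge _ _ _ (by omega)]
    rw [show 2 * j - 4 = 2 * (j - 2) by omega]

theorem P_dc (i : ℕ) (x : ℕ → ZMod 3) : P (dc i x) = delF i (P x) := by
  funext j
  by_cases h0 : j < i
  · rw [delF_lt _ h0]
    unfold P
    rw [dc_lt _ (by omega), dc_lt _ (by omega)]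
  · rw [delF_ge _ (by omega)]
    unfold P
    rw [dc_ge _ (by omega), dc_ge _ (by omega)]
    rw [show 2 * (j + 2) = 2 * j + 4 by ring, show 2 * j + 1 + 4 = 2 * j + 4 + 1 by ring]

theorem R_dc (i : ℕ) (x : ℕ → ZMod 3) : R (dc i x) = delF i (R x) := by
  funext j
  by_cases h0 : j < i
  · rw [delF_lt _ h0]
    unfold R
    rw [dc_lt _ (by omega)]
  · rw [delF_ge _ (by omega)]
    unfold R
    rw [dc_ge _ (by omega)]
    rw [show 2 * (j + 2) = 2 * j + 4 by ring]

theorem P_s4 (i : ℕ) (a b c d : ZMod 3) (x : ℕ → ZMod 3) :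
    P (s4 i a b c d x) = setF i (if a = b then 0 else 1) (if c = d then 0 else 1) (P x) := by
  funext j
  by_cases h1 : j = i
  · subst h1
    rw [setF_0]
    unfold P
    rw [s4_0, s4_1]
  by_cases h2 : j = i + 1
  · subst h2
    rw [setF_1]
    unfold P
    rw [show 2 * (i + 1) = 2 * i + 2 by ring, s4_2, s4_3]
  · rw [setF_ne _ _ _ h1 h2]
    unfold P
    rw [s4_ne _ _ _ _ _ (by omega), s4_ne _ _ _ _ _ (by omega)]

theorem R_s4 (i : ℕ) (a b c d : ZMod 3) (x : ℕ → ZMod 3) :
    R (s4 i a b c d x) = setF i (if a = 0 then 0 else 1) (if c = 0 then 0 else 1) (R x) := by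
  funext j
  by_cases h1 : j = i
  · subst h1
    rw [setF_0]
    unfold R
    rw [s4_0]
  by_cases h2 : j = i + 1
  · subst h2
    rw [setF_1]
    unfold R
    rw [show 2 * (i + 1) = 2 * i + 2 by ring, s4_2]
  · rw [setF_ne _ _ _ h1 h2]
    unfold R
    rw [s4_ne _ _ _ _ _ (by omega)]

theorem P_pc (i : ℕ) (x : ℕ → ZMod 3) : P (pc i x) = setF i (P x (i + 1)) (P x i) (P x) := by
  rw [pc, P_s4]
  simp only [add_right_inj]
  rfl

theorem P_nc (i : ℕ) (x : ℕ → ZMod 3) : P (nc i x) = setF i (P x (i + 1)) (P x i) (P x) := by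
  rw [nc, P_s4]
  simp only [add_right_inj]
  rfl

/-- all the bands have two equal labels -/
def Eqs (x : ℕ → ZMod 3) : Prop := ∀ j, x (2 * j) = x (2 * j + 1)

theorem P_eqs {x : ℕ → ZMod 3} (h : Eqs x) : P x = 0 := by
  funext j
  simp only [P]
  rw [if_pos (h j)]
  rfl

theorem eqs_P {x : ℕ → ZMod 3} (h : P x = 0) : Eqs x := by
  intro j
  have := congrFun h j
  simp only [P] at this
  by_contra hc
  rw [if_neg hc] at this
  exact one_ne_zero this

theorem R_pc (i : ℕ) (x : ℕ → ZMod 3) (h : Eqs x) :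
    R (pc i x) = setF i (R x (i + 1)) (R x i) (R x) := by
  rw [pc, R_s4, h i, sub_self, zero_add]
  simp only [R]
  rw [h i]
  rfl

theorem R_nc (i : ℕ) (x : ℕ → ZMod 3) (h : Eqs x) :
    R (nc i x) = setF i (R x (i + 1)) (R x i) (R x) := by
  have e : x (2 * i + 2) = x (2 * i + 3) := h (i + 1)
  rw [nc, R_s4, e, sub_self, zero_add]
  simp only [R]
  rw [show 2 * (i + 1) = 2 * i + 2 by ring, e]

/-- bands with different labels -/
theorem DP1 (t : Word) : ∀ x : ℕ → ZMod 3, e3 (dbl t) x ≠ 0 → e2 t (P x) ≠ 0 := by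
  induction t with
  | nil =>
    intro x _
    exact one_ne_zero
  | cons s t ih =>
    intro x hx
    obtain ⟨i, g⟩ := s
    cases g
    · rw [e3_cup] at hx
      obtain ⟨c, -, hc⟩ := Finset.exists_ne_zero_of_sum_ne_zero hx
      obtain ⟨d, -, hd⟩ := Finset.exists_ne_zero_of_sum_ne_zero hc
      have := ih _ hd
      rw [P_ic] at this
      rw [e2_cup]
      by_cases hcd : c = d
      · rw [if_pos hcd] at this
        omega
      · rw [if_neg hcd] at this
        omega
    · obtain ⟨h1, h2, h3⟩ := e3_cap i t x hx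
      have := ih _ h3
      rw [P_dc] at this
      rw [e2_cap _ _ _ _]
      · exact this
      · simp only [P]
        rw [show 2 * (i + 1) = 2 * i + 2 by ring, h1, h2]
        simp only [eq_comm]
    · rw [pc_eq] at hx
      have := ih _ hx
      rw [P_pc] at this
      rw [e2_pos]
      exact this
    · rw [nc_eq] at hx
      have := ih _ hx
      rw [P_nc] at this
      rw [e2_neg]
      exact this

/-- bands with equal labels -/
theorem DP2 (t : Word) (h : e2 t 0 ≤ 1) : ∀ x : ℕ → ZMod 3, Eqs x → e3 (dbl t) x ≠ 0 →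
    e2 t (R x) ≠ 0 := by
  induction t with
  | nil =>
    intro x _ _
    exact one_ne_zero
  | cons s t ih =>
    intro x hE hx
    have ht : e2 t 0 ≤ 1 := (mono s t).trans h
    have ih := ih ht
    obtain ⟨i, g⟩ := s
    cases g
    · have h0 := cup_zero h
      rw [e3_cup] at hx
      obtain ⟨c, -, hc⟩ := Finset.exists_ne_zero_of_sum_ne_zero hx
      obtain ⟨d, -, hd⟩ := Finset.exists_ne_zero_of_sum_ne_zero hc
      have hP := DP1 t _ hd
      rw [P_ic, P_eqs hE] at hP
      by_cases hcd : c = d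
      · subst hcd
        have hE' : Eqs (ic i c c x) := by
          apply eqs_P
          rw [P_ic, P_eqs hE, if_pos rfl, ins0]
        have := ih _ hE' hd
        rw [R_ic] at this
        rw [e2_cup]
        by_cases hc0 : c = 0
        · rw [if_pos hc0] at this
          omega
        · rw [if_neg hc0] at this
          omega
      · rw [if_neg hcd] at hP
        exact absurd h0 hP
    · obtain ⟨h1, h2, h3⟩ := e3_cap i t x hx
      have hE' : Eqs (dc i x) := by
        apply eqs_P
        rw [P_dc, P_eqs hE, del0]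
      have := ih _ hE' h3
      rw [R_dc] at this
      rw [e2_cap _ _ _ _]
      · exact this
      · simp only [R]
        rw [show 2 * (i + 1) = 2 * i + 2 by ring, ← h1, hE i]
    · rw [pc_eq] at hx
      have hE' : Eqs (pc i x) := by
        apply eqs_P
        rw [P_pc, P_eqs hE, set0]
      have := ih _ hE' hx
      rw [R_pc _ _ hE] at this
      rw [e2_pos]
      exact this
    · rw [nc_eq] at hx
      have hE' : Eqs (nc i x) := by
        apply eqs_P
        rw [P_nc, P_eqs hE, set0]
      have := ih _ hE' hx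
      rw [R_nc _ _ hE] at this
      rw [e2_neg]
      exact this

theorem P0 : P 0 = 0 := by
  funext j
  simp [P]

theorem R0 : R 0 = 0 := by
  funext j
  simp [R]

theorem E0 : Eqs 0 := fun _ => rfl

theorem t : S_K1 := by
  intro w
  induction w with
  | nil =>
    intro _
    exact le_refl _
  | cons s t ih =>
    intro h
    have ht := ih ((mono s t).trans h)
    obtain ⟨i, g⟩ := s
    cases g
    · have h0 := cup_zero h
      have key : ∀ c d : ZMod 3, ¬ (c = 0 ∧ d = 0) → e3 (dbl t) (ic i c d 0) = 0 := by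
        intro c d hcd
        by_contra hne
        have hP := DP1 t _ hne
        rw [P_ic, P0] at hP
        by_cases hc : c = d
        · subst hc
          have hE' : Eqs (ic i c c 0) := by
            apply eqs_P
            rw [P_ic, P0, if_pos rfl, ins0]
          have := DP2 t ((mono _ t).trans h) _ hE' hne
          rw [R_ic, R0, if_neg (fun h => hcd ⟨h, h⟩)] at this
          exact this h0
        · rw [if_neg hc] at hP
          exact hP h0
      rw [e3_cup]
      rw [Finset.sum_eq_single 0]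
      · rw [Finset.sum_eq_single 0]
        · have : ic i 0 0 (0 : ℕ → ZMod 3) = 0 := by
            funext j
            simp [ic, insF]
          rw [this]
          exact ht
        · intro d _ hd
          exact key 0 d (fun h => hd h.2)
        · intro h
          exact absurd (Finset.mem_univ _) h
      · intro c _ hc
        exact Finset.sum_eq_zero fun d _ => key c d (fun h => hc h.1)
      · intro h
        exact absurd (Finset.mem_univ _) h
    · by_cases hz : e3 (dbl ((i, .cap) :: t)) 0 = 0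
      · rw [hz]
        exact Nat.zero_le _
      · have : e3 (dbl ((i, .cap) :: t)) 0 = e3 (dbl t) 0 := by
          simp only [dbl, List.flatMap_cons, dbl1, List.cons_append, List.nil_append, e3, ev, op]
          have d0 : ∀ k : ℕ, delF k (0 : ℕ → ZMod 3) = 0 := by
            intro k
            funext j
            simp [delF]
          rw [if_pos (show (0 : ℕ → ZMod 3) (2 * i + 1) = (0 : ℕ → ZMod 3) (2 * i + 1 + 1) from rfl),
            d0, if_pos (show (0 : ℕ → ZMod 3) (2 * i) = (0 : ℕ → ZMod 3) (2 * i + 1) from rfl), d0]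
        rw [this]
        exact ht
    · rw [pc_eq]
      have : pc i 0 = 0 := by
        funext j
        simp [pc, s4]
      rw [this]
      exact ht
    · rw [nc_eq]
      have : nc i 0 = 0 := by
        funext j
        simp [nc, s4]
      rw [this]
      exact ht

end Pool.Agent.Helper67.LN.K1
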